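import Pool.Agent.P.MP_f92abf_co.Coset

namespace Pool.Agent.Results.MP_f92abf_co.Superlinear

theorem result : ∀ d n : ℕ, 40000 ≤ d → (n : ℝ) ≤ d + d * √d / 20 →
    ∃ A : Finset (Fin n → ZMod 2), (2 : ℝ) ^ (-(d : ℝ)) ≤ (A.card : ℝ) / 2 ^ n ∧
      ¬ ∃ V : Submodule (ZMod 2) (Fin n → ZMod 2),
        d ≤ Module.finrank (ZMod 2) V ∧ ∀ v ∈ V, ∃ a ∈ A, a ∉ V ∧ a + v ∈ A := by
  intro d n hd hn
  obtain ⟨A, a1, a2⟩ := Pool.Agent.P.MP_f92abf_co.main_coset d d n hd (by omega) hn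
  refine ⟨A, a1, fun ⟨V, v1, v2⟩ => a2 ⟨V, 0, v1, fun v hv => ?_⟩⟩
  obtain ⟨a, ha, -, h⟩ := v2 v hv
  exact ⟨a, ha, _, h, by
    rw [← add_assoc, Pool.Agent.P.MP_f92abf_co.add_self]⟩

/-- The negated form of the posed question. -/
theorem posed :
    ∀ C : ℝ, 0 < C → ∃ d : ℕ, 1 ≤ d ∧ ∃ A : Finset (Fin ⌈C * d⌉₊ → ZMod 2),
      (2 : ℝ) ^ (-(d : ℝ)) ≤ (A.card : ℝ) / 2 ^ ⌈C * d⌉₊ ∧
      ¬ ∃ V : Submodule (ZMod 2) (Fin ⌈C * d⌉₊ → ZMod 2),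
        d ≤ Module.finrank (ZMod 2) V ∧ ∀ v ∈ V, ∃ a ∈ A, a ∉ V ∧ a + v ∈ A := by
  intro C hC
  obtain ⟨d, hd⟩ : ∃ d : ℕ, 40000 + ⌈(20 * C) ^ 2⌉₊ ≤ d := ⟨_, le_rfl⟩
  have h1 : 20 * C ≤ √d := Real.le_sqrt_of_sq_le (Nat.ceil_le.1 (by omega))
  have h2 : (1 : ℝ) ≤ d := by exact_mod_cast (by omega : 1 ≤ d)
  have h3 : ((⌈C * d⌉₊ : ℕ) : ℝ) ≤ C * d + 1 := (Nat.ceil_lt_add_one (by positivity)).le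
  exact ⟨d, by omega, result d _ (by omega) (by nlinarith)⟩

end Pool.Agent.Results.MP_f92abf_co.Superlinear
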